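import Pool.Agent.Q266.RP.Stm3

/-! JOB QP of project RP (helper266), second round. -/

namespace Pool.Agent.Q231.RPB

open Pool.Agent.Q266.RP Module

/-- if `|P| = p d ^ 2` then `ρ` is injective or trivial -/
theorem inj_or_triv (hDesc : S_DESC) (hDiv : S_DIV) (p : ℕ) [hp : Fact p.Prime] (hp2 : p ≠ 2)
    {P V : Type} [Group P] [Finite P] [AddCommGroup V] [Module ℂ V] [FiniteDimensional ℂ V]
    (ρ : Representation ℂ P V) (hP : IsPGroup p P) (hIrr : Irr ρ)
    (hcard : Nat.card P = p * (finrank ℂ V) ^ 2) :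
    (∀ g, ρ g = 1 → g = 1) ∨ ∀ g, ρ g = 1 := by
  by_cases hker : ∀ g, ρ g = 1 → g = 1
  · exact Or.inl hker
  · right
    push Not at hker
    obtain ⟨g, hg1, hg2⟩ := hker
    obtain ⟨σ, hσ, hσ2⟩ := hDesc.2 P V ρ (MonoidHom.ker ρ) hIrr (fun n hn => hn)
    have hQP : IsPGroup p (P ⧸ MonoidHom.ker ρ) := hP.to_quotient _
    have hcd : Nat.card P = Nat.card (P ⧸ MonoidHom.ker ρ) * Nat.card (MonoidHom.ker ρ) :=
      Subgroup.card_eq_card_quotient_mul_card_subgroup _
    have hpos : 0 < Nat.card (P ⧸ MonoidHom.ker ρ) := Nat.card_pos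
    have hk : 1 < Nat.card (MonoidHom.ker ρ) := by
      rw [Finite.one_lt_card_iff_nontrivial]
      exact ⟨⟨⟨g, hg1⟩, 1, fun h => hg2 (congrArg Subtype.val h)⟩⟩
    have hd := (hDiv p hp2 (P ⧸ MonoidHom.ker ρ) V σ hQP hσ).2
    have hsub : Subsingleton (P ⧸ MonoidHom.ker ρ) := by
      by_contra hns
      rw [not_subsingleton_iff_nontrivial] at hns
      have h1 := Nat.le_of_dvd hpos (hd hns)
      rw [← hcard, hcd] at h1
      nlinarith
    intro h
    have h1 : (QuotientGroup.mk h : P ⧸ MonoidHom.ker ρ) = 1 := Subsingleton.elim _ _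
    rw [← hσ2 h, h1, map_one]

theorem eq_of_rho {P V : Type} [Group P] [AddCommGroup V] [Module ℂ V] (ρ : Representation ℂ P V)
    (hker : ∀ g, ρ g = 1 → g = 1) {a b : P} (h : ρ a = ρ b) : a = b := by
  have h1 : ρ (a * b⁻¹) = 1 := by
    rw [map_mul, h, ← map_mul, mul_inv_cancel, map_one]
  exact mul_inv_eq_one.1 (hker _ h1)

theorem central_of_scal {P V : Type} [Group P] [AddCommGroup V] [Module ℂ V]
    (ρ : Representation ℂ P V) (hker : ∀ g, ρ g = 1 → g = 1) {t : P} {c : ℂ}
    (hc : ∀ v, ρ t v = c • v) : t ∈ Subgroup.center P := by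
  rw [Subgroup.mem_center_iff]
  intro g
  apply eq_of_rho ρ hker
  ext v
  rw [map_mul, map_mul, Module.End.mul_apply, Module.End.mul_apply, hc, hc, map_smul]

theorem pow_act {P V : Type} [Group P] [AddCommGroup V] [Module ℂ V]
    (ρ : Representation ℂ P V) {t : P} {c : ℂ} (hc : ∀ v, ρ t v = c • v) (k : ℕ) (v : V) :
    ρ (t ^ k) v = c ^ k • v := by
  induction k with
  | zero => simp
  | succ k ihk =>
    rw [pow_succ', map_mul, Module.End.mul_apply, ihk, map_smul, hc, smul_smul, pow_succ]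

theorem pow_eq_one {P V : Type} [Group P] [AddCommGroup V] [Module ℂ V]
    (ρ : Representation ℂ P V) {t : P} {c : ℂ} (hc : ∀ v, ρ t v = c • v) {v₀ : V} (hv₀ : v₀ ≠ 0)
    {k : ℕ} (ht : t ^ k = 1) : c ^ k = 1 := by
  have h3 := pow_act ρ hc k v₀
  rw [ht, map_one, Module.End.one_apply] at h3
  have h4 : (c ^ k - 1) • v₀ = 0 := by rw [sub_smul, one_smul, ← h3, sub_self]
  rcases smul_eq_zero.1 h4 with h5 | h5
  · exact sub_eq_zero.1 h5
  · exact absurd h5 hv₀

/-- scalars have order dividing `p` -/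
theorem scal_order (hOdd : S_ODDPAIR) (hStep : S_STEPB) (hSchur : S_SCHUR) (hDesc : S_DESC)
    (hDiv : S_DIV) : ∀ n : ℕ, ∀ (p : ℕ) [Fact p.Prime], p ≠ 2 → ∀ (P V : Type) [Group P] [Finite P]
      [AddCommGroup V] [Module ℂ V] [FiniteDimensional ℂ V] (ρ : Representation ℂ P V),
      Nat.card P = n → IsPGroup p P → Irr ρ → Nat.card P = p * (finrank ℂ V) ^ 2 →
      ∀ (t : P) (c : ℂ), (∀ v, ρ t v = c • v) → c ^ p = 1 := by
  intro n
  induction n using Nat.strong_induction_on with
  | _ n ih =>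
  intro p hp hp2 P V _ _ _ _ _ ρ hn hP hIrr hcard t c hc
  have := hIrr.1
  obtain ⟨v₀, hv₀⟩ := exists_ne (0 : V)
  rcases inj_or_triv hDesc hDiv p hp2 ρ hP hIrr hcard with hker | htriv
  · by_cases hcomm : ∀ a b : P, a * b = b * a
    · have hd := hSchur.2.2 P V ρ hIrr hcomm
      rw [hd] at hcard
      have ht : t ^ p = 1 := by
        have h1 : t ^ Nat.card P = 1 := pow_card_eq_one'
        rwa [hcard, one_pow, mul_one] at h1
      exact pow_eq_one ρ hc hv₀ ht
    · obtain ⟨e, z, hez⟩ := hOdd p hp2 P hP (hSchur.2.1 p P V ρ hIrr hker) hcomm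
      have hzc : z ∈ Subgroup.center P := hez.2.2.1
      have hzo : orderOf z = p := hez.2.2.2.1
      obtain ⟨ω, hω⟩ := hSchur.1 P V ρ hIrr z hzc
      have hω1 : ω ≠ 1 := by
        intro h
        have h1 : z = 1 := hker z (by
          ext v
          rw [hω, h, one_smul]
          rfl)
        rw [h1, orderOf_one] at hzo
        exact hp.out.one_lt.ne hzo
      have hx1 : LinearMap.trace ℂ V (ρ (1 : P)) ≠ 0 := by
        rw [map_one, LinearMap.trace_one]
        exact_mod_cast (Module.finrank_pos (R := ℂ) (M := V)).ne'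
      obtain ⟨hxC, m, hu, hN, W, σ, hσ, hfr, hact, htr, hcd⟩ :=
        hStep p P V ρ hIrr e z hez ω hω hω1 1 hx1
      have htc : t ∈ Subgroup.center P := central_of_scal ρ hker hc
      have htC : t ∈ Subgroup.centralizer ({e} : Set P) :=
        Subgroup.center_le_centralizer _ htc
      have hQP : IsPGroup p (Subgroup.centralizer ({e} : Set P) ⧸
          Subgroup.zpowers (⟨e * z ^ m, hu⟩ : Subgroup.centralizer ({e} : Set P))) :=
        (hP.to_subgroup _).to_quotient _
      have hpos : 0 < Nat.card (Subgroup.centralizer ({e} : Set P) ⧸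
          Subgroup.zpowers (⟨e * z ^ m, hu⟩ : Subgroup.centralizer ({e} : Set P))) := Nat.card_pos
      have hpp : 1 < p ^ 2 := Nat.one_lt_pow (by norm_num) hp.out.one_lt
      have hlt : Nat.card (Subgroup.centralizer ({e} : Set P) ⧸
          Subgroup.zpowers (⟨e * z ^ m, hu⟩ : Subgroup.centralizer ({e} : Set P))) < n := by
        rw [← hn, hcd]
        nlinarith
      have hcard' : Nat.card (Subgroup.centralizer ({e} : Set P) ⧸
          Subgroup.zpowers (⟨e * z ^ m, hu⟩ : Subgroup.centralizer ({e} : Set P))) =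
          p * (finrank ℂ W) ^ 2 := by
        have h1 : p ^ 2 * Nat.card (Subgroup.centralizer ({e} : Set P) ⧸
          Subgroup.zpowers (⟨e * z ^ m, hu⟩ : Subgroup.centralizer ({e} : Set P))) =
          p ^ 2 * (p * (finrank ℂ W) ^ 2) := by
          rw [← hcd, hcard, hfr]
          ring
        exact Nat.eq_of_mul_eq_mul_left (by positivity) h1
      refine ih _ hlt p hp2 _ W σ rfl hQP hσ hcard' (QuotientGroup.mk ⟨t, htC⟩) c fun w => ?_
      apply Subtype.ext
      rw [hact, hc]
      rfl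
  · have h1 : ρ t v₀ = v₀ := by rw [htriv t]; rfl
    rw [hc] at h1
    have h4 : (c - 1) • v₀ = 0 := by rw [sub_smul, one_smul, h1, sub_self]
    rcases smul_eq_zero.1 h4 with h5 | h5
    · rw [sub_eq_zero.1 h5, one_pow]
    · exact absurd h5 hv₀

/-- a root of unity of order dividing `p` is a power of any nontrivial one -/
theorem is_pow (p : ℕ) [hp : Fact p.Prime] {ω c : ℂ} (h1 : ω ^ p = 1) (h2 : ω ≠ 1)
    (hc : c ^ p = 1) : ∃ k : ℕ, c = ω ^ k := by
  have hprim : IsPrimitiveRoot ω p := by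
    have h3 : orderOf ω = p := orderOf_eq_prime h1 h2
    rw [← h3]
    exact IsPrimitiveRoot.orderOf ω
  obtain ⟨i, _, hi⟩ := hprim.eq_pow_of_pow_eq_one hc
  exact ⟨i, hi.symm⟩

theorem qp (hOdd : S_ODDPAIR) (hStep : S_STEPB) (hSchur : S_SCHUR) (hDesc : S_DESC)
    (hTrz : S_TRZ) (hDiv : S_DIV) : S_QP := by
  have key : ∀ n : ℕ, ∀ (p : ℕ) [Fact p.Prime], p ≠ 2 → ∀ (P V : Type) [Group P] [Finite P]
      [AddCommGroup V] [Module ℂ V] [FiniteDimensional ℂ V] (ρ : Representation ℂ P V),
      Nat.card P = n → IsPGroup p P → Irr ρ → Nat.card P = p * (finrank ℂ V) ^ 2 →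
      ∀ x : P, LinearMap.trace ℂ V (ρ x) ≠ 0 → ∃ c : ℂ, ∀ v, ρ x v = c • v := by
    intro n
    induction n using Nat.strong_induction_on with
    | _ n ih =>
    intro p hp hp2 P V _ _ _ _ _ ρ hn hP hIrr hcard x hx
    rcases inj_or_triv hDesc hDiv p hp2 ρ hP hIrr hcard with hker | htriv
    · by_cases hcen : x ∈ Subgroup.center P
      · exact hSchur.1 P V ρ hIrr x hcen
      exfalso
      have hcomm : ¬ ∀ a b : P, a * b = b * a := fun h =>
        hcen (Subgroup.mem_center_iff.2 fun g => h g x)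
      obtain ⟨e, z, hez⟩ := hOdd p hp2 P hP (hSchur.2.1 p P V ρ hIrr hker) hcomm
      have hzc : z ∈ Subgroup.center P := hez.2.2.1
      have hzo : orderOf z = p := hez.2.2.2.1
      obtain ⟨ω, hω⟩ := hSchur.1 P V ρ hIrr z hzc
      have hω1 : ω ≠ 1 := by
        intro h
        have h1 : z = 1 := hker z (by
          ext v
          rw [hω, h, one_smul]
          rfl)
        rw [h1, orderOf_one] at hzo
        exact hp.out.one_lt.ne hzo
      obtain ⟨hxC, m, hu, hN, W, σ, hσ, hfr, hact, htr, hcd⟩ :=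
        hStep p P V ρ hIrr e z hez ω hω hω1 x hx
      have hWnt := hσ.1
      obtain ⟨w₀, hw₀⟩ := exists_ne (0 : W)
      have hzC : z ∈ Subgroup.centralizer ({e} : Set P) := Subgroup.center_le_centralizer _ hzc
      have hQP : IsPGroup p (Subgroup.centralizer ({e} : Set P) ⧸
          Subgroup.zpowers (⟨e * z ^ m, hu⟩ : Subgroup.centralizer ({e} : Set P))) :=
        (hP.to_subgroup _).to_quotient _
      have hpos : 0 < Nat.card (Subgroup.centralizer ({e} : Set P) ⧸
          Subgroup.zpowers (⟨e * z ^ m, hu⟩ : Subgroup.centralizer ({e} : Set P))) := Nat.card_pos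
      have hpp : 1 < p ^ 2 := Nat.one_lt_pow (by norm_num) hp.out.one_lt
      have hlt : Nat.card (Subgroup.centralizer ({e} : Set P) ⧸
          Subgroup.zpowers (⟨e * z ^ m, hu⟩ : Subgroup.centralizer ({e} : Set P))) < n := by
        rw [← hn, hcd]
        nlinarith
      have hcard' : Nat.card (Subgroup.centralizer ({e} : Set P) ⧸
          Subgroup.zpowers (⟨e * z ^ m, hu⟩ : Subgroup.centralizer ({e} : Set P))) =
          p * (finrank ℂ W) ^ 2 := by
        have h1 : p ^ 2 * Nat.card (Subgroup.centralizer ({e} : Set P) ⧸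
          Subgroup.zpowers (⟨e * z ^ m, hu⟩ : Subgroup.centralizer ({e} : Set P))) =
          p ^ 2 * (p * (finrank ℂ W) ^ 2) := by
          rw [← hcd, hcard, hfr]
          ring
        exact Nat.eq_of_mul_eq_mul_left (by positivity) h1
      obtain ⟨c, hc⟩ := ih _ hlt p hp2 _ W σ rfl hQP hσ hcard' (QuotientGroup.mk ⟨x, hxC⟩) htr
      have hcp : c ^ p = 1 := scal_order hOdd hStep hSchur hDesc hDiv _ p hp2 _ W σ rfl hQP hσ
        hcard' _ c hc
      have hzact : ∀ w : W, σ (QuotientGroup.mk ⟨z, hzC⟩) w = ω • w := by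
        intro w
        apply Subtype.ext
        rw [hact, hω]
        rfl
      have hωp : ω ^ p = 1 := by
        obtain ⟨v₀, hv₀⟩ := @exists_ne V hIrr.1 0
        exact pow_eq_one ρ hω hv₀ (by rw [← hzo]; exact pow_orderOf_eq_one z)
      obtain ⟨k, hk⟩ := is_pow p hωp hω1 hcp
      have hσinj : ∀ g, σ g = 1 → g = 1 := by
        rcases inj_or_triv hDesc hDiv p hp2 σ hQP hσ hcard' with h1 | h1
        · exact h1
        · exfalso
          have h2 := hzact w₀
          rw [h1, Module.End.one_apply] at h2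
          have h4 : (ω - 1) • w₀ = 0 := by rw [sub_smul, one_smul, ← h2, sub_self]
          rcases smul_eq_zero.1 h4 with h5 | h5
          · exact hω1 (sub_eq_zero.1 h5)
          · exact hw₀ h5
      have heq : (QuotientGroup.mk ⟨x, hxC⟩ : Subgroup.centralizer ({e} : Set P) ⧸
          Subgroup.zpowers (⟨e * z ^ m, hu⟩ : Subgroup.centralizer ({e} : Set P))) =
          (QuotientGroup.mk ⟨z, hzC⟩) ^ k := by
        apply eq_of_rho σ hσinj
        ext w
        rw [hc, pow_act σ hzact, hk]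
      have hmem : (⟨z, hzC⟩ ^ k : Subgroup.centralizer ({e} : Set P))⁻¹ * ⟨x, hxC⟩ ∈
          Subgroup.zpowers (⟨e * z ^ m, hu⟩ : Subgroup.centralizer ({e} : Set P)) := by
        rw [← QuotientGroup.eq]
        exact heq.symm
      obtain ⟨j, hj⟩ := Subgroup.mem_zpowers_iff.1 hmem
      have hj' : (e * z ^ m) ^ j = (z ^ k)⁻¹ * x := by
        have h1 := congrArg (Subtype.val) hj
        simpa using h1
      have hxe : x = z ^ k * (e * z ^ m) ^ j := by
        rw [hj', mul_inv_cancel_left]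
      rw [Subgroup.mem_center_iff] at hcen
      push Not at hcen
      obtain ⟨g, hg⟩ := hcen
      obtain ⟨i, hi⟩ := hez.2.2.2.2 g
      have hzz : ∀ y : P, y * z = z * y := fun y => Subgroup.mem_center_iff.1 hzc y
      have hcz : ∀ (y : P) (l : ℕ), Commute y (z ^ l) := fun y l =>
        (show Commute y z from hzz y).pow_right l
      have hgu : g * (e * z ^ m) * g⁻¹ = (e * z ^ m) * z ^ i := by
        have h1 : g * (e * z ^ m) * g⁻¹ = (g * e * g⁻¹) * z ^ m := by
          have h2 := (hcz g⁻¹ m).eq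
          calc g * (e * z ^ m) * g⁻¹ = g * e * (z ^ m * g⁻¹) := by group
            _ = g * e * (g⁻¹ * z ^ m) := by rw [h2]
            _ = (g * e * g⁻¹) * z ^ m := by group
        rw [h1, hi, mul_assoc, mul_assoc, (hcz (z ^ i) m).eq]
      have hgx : g * x * g⁻¹ = x * (z ^ i) ^ j := by
        have h1 : g * x * g⁻¹ = z ^ k * (g * (e * z ^ m) * g⁻¹) ^ j := by
          rw [conj_zpow, hxe]
          have h2 := (hcz g k).eq
          calc g * (z ^ k * (e * z ^ m) ^ j) * g⁻¹ = (g * z ^ k) * (e * z ^ m) ^ j * g⁻¹ := by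
                group
            _ = (z ^ k * g) * (e * z ^ m) ^ j * g⁻¹ := by rw [h2]
            _ = z ^ k * (g * (e * z ^ m) ^ j * g⁻¹) := by group
        rw [h1, hgu, (hcz (e * z ^ m) i).mul_zpow, hxe, mul_assoc]
      have htc : (z ^ i) ^ j ∈ Subgroup.center P :=
        Subgroup.zpow_mem _ (Subgroup.pow_mem _ hzc i) j
      obtain ⟨c', hc'⟩ := hSchur.1 P V ρ hIrr _ htc
      have hc1 : c' ≠ 1 := by
        intro h5
        have h6 : (z ^ i) ^ j = 1 := hker _ (by
          ext v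
          rw [hc', h5, one_smul]
          rfl)
        rw [h6, mul_one] at hgx
        exact hg (by rw [← mul_inv_eq_iff_eq_mul]; exact hgx)
      exact hx (hTrz P V ρ x g _ c' hc' hc1 hgx)
    · exact ⟨1, fun v => by rw [htriv x, one_smul]; rfl⟩
  intro p hp hp2 P V _ _ _ _ _ ρ hP hIrr hcard x hx
  exact key _ p hp2 P V ρ rfl hP hIrr hcard x hx

end Pool.Agent.Q231.RPB
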